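import Pool.Agent.TH839.NA.Raw
import Pool.Agent.W355.UN.Inst2

/-!
# Holomorphic newforms, with Hecke's bound only
-/

set_option autoImplicit false

open Complex MeasureTheory Filter Topology Set CongruenceSubgroup MatrixGroups
open scoped ComplexConjugate

namespace Pool.Agent.TH839.NA

open Pool.Agent.W169.HF H353.E Pool.Agent.W355.UN Pool.Agent.W355.LJ

lemma exists_roots (x e : ℂ) : ∃ u v : ℂ, u + v = x ∧ u * v = e := by
  obtain ⟨z, hz⟩ := IsAlgClosed.exists_eq_mul_self (x ^ 2 - 4 * e)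
  refine ⟨(x + z) / 2, (x - z) / 2, by ring, ?_⟩
  have : z * z = x ^ 2 - 4 * e := hz.symm
  linear_combination (-1 / 4 : ℂ) * this

/-- a root of a recursion with a solution `O(P^k)` is at most `P` -/
lemma root_le {β : ℕ → ℂ} {u v : ℂ} {P A : ℝ} (hP : 0 < P) (h0 : β 0 = 1) (h1 : β 1 = u + v)
    (hrec : ∀ k, β (k + 2) = (u + v) * β (k + 1) - u * v * β k) (hA : ∀ k, ‖β k‖ ≤ A * P ^ k) :
    ‖u‖ ≤ P := by
  by_contra hc
  push Not at hc
  have hu0 : 0 < ‖u‖ := hP.trans hc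
  have hγ : ∀ k, β (k + 1) - v * β k = u ^ (k + 1) := by
    intro k
    induction k with
    | zero => rw [h1, h0]; ring
    | succ k ih =>
      rw [hrec k, pow_succ, ← ih]
      ring
  have hA0 : 0 ≤ A := by
    have := hA 0
    rw [h0, norm_one, pow_zero, mul_one] at this
    linarith
  have hb : ∀ k, ‖u‖ ^ (k + 1) ≤ A * (P + ‖v‖) * P ^ k := by
    intro k
    rw [← norm_pow, ← hγ k]
    refine (norm_sub_le _ _).trans ?_
    rw [norm_mul]
    calc ‖β (k + 1)‖ + ‖v‖ * ‖β k‖ ≤ A * P ^ (k + 1) + ‖v‖ * (A * P ^ k) := by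
          gcongr
          · exact hA _
          · exact hA _
      _ = A * (P + ‖v‖) * P ^ k := by ring
  have hr : 1 < ‖u‖ / P := (one_lt_div hP).2 hc
  obtain ⟨k, hk⟩ := pow_unbounded_of_one_lt (A * (P + ‖v‖) / ‖u‖) hr
  have h2 := hb k
  rw [div_pow, div_lt_div_iff₀ hu0 (by positivity)] at hk
  have h3 : ‖u‖ ^ k * ‖u‖ = ‖u‖ ^ (k + 1) := by ring
  rw [h3] at hk
  linarith

/-- Euler products of degree two with Hecke's relations and the bound `n^(1/2)` -/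
theorem eu2_of_hecke {b : ℕ → ℂ} (h1 : b 1 = 1)
    (hmul : ∀ m n : ℕ, Nat.Coprime m n → b (m * n) = b m * b n)
    (hpow : ∀ p : ℕ, p.Prime → ∃ e : ℂ, ∀ k : ℕ,
      b (p ^ (k + 2)) = b p * b (p ^ (k + 1)) - e * b (p ^ k))
    {A : ℝ} (hA : ∀ n : ℕ, 1 ≤ n → ‖b n‖ ≤ A * (n : ℝ) ^ (1 / 2 : ℝ)) :
    Eu2 fun n => b n * pw (-(1 / 2)) n := by
  refine ⟨by rw [h1, pw_one, one_mul], fun m n hmn => ?_, fun p hp => ?_⟩
  · rw [hmul m n hmn, pw_mul]
    ring
  · obtain ⟨e, he⟩ := hpow p hp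
    obtain ⟨u, v, huv, huv2⟩ := exists_roots (b p) e
    have hp0 : (0 : ℝ) < p := by exact_mod_cast hp.pos
    set P : ℝ := (p : ℝ) ^ (1 / 2 : ℝ) with hP
    have hPpos : 0 < P := Real.rpow_pos_of_pos hp0 _
    have hβ : ∀ k, ‖b (p ^ k)‖ ≤ A * P ^ k := by
      intro k
      have h2 := hA (p ^ k) (Nat.one_le_iff_ne_zero.2 (pow_ne_zero _ hp.ne_zero))
      have h3 : (((p ^ k : ℕ)) : ℝ) ^ (1 / 2 : ℝ) = P ^ k := by
        rw [hP, Nat.cast_pow, ← Real.rpow_natCast, ← Real.rpow_natCast, ← Real.rpow_mul hp0.le,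
          ← Real.rpow_mul hp0.le, mul_comm]
      rwa [h3] at h2
    have hu : ‖u‖ ≤ P := by
      refine root_le (β := fun k => b (p ^ k)) (v := v) hPpos (by simpa using h1) ?_ ?_ hβ
      · show b (p ^ 1) = u + v
        rw [pow_one, huv]
      · intro k
        show b (p ^ (k + 2)) = (u + v) * b (p ^ (k + 1)) - u * v * b (p ^ k)
        rw [he k, huv, huv2]
    have hv : ‖v‖ ≤ P := by
      refine root_le (β := fun k => b (p ^ k)) (v := u) hPpos (by simpa using h1) ?_ ?_ hβ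
      · show b (p ^ 1) = v + u
        rw [pow_one, add_comm, huv]
      · intro k
        show b (p ^ (k + 2)) = (v + u) * b (p ^ (k + 1)) - v * u * b (p ^ k)
        rw [he k, add_comm v u, mul_comm v u, huv, huv2]
    have hpw : ‖pw (-(1 / 2)) p‖ = P⁻¹ := by
      rw [pw_norm, hP, Real.rpow_neg hp0.le]
    refine ⟨u * pw (-(1 / 2)) p, v * pw (-(1 / 2)) p, ?_, ?_, ?_, fun k => ?_⟩
    · rw [norm_mul, hpw, ← div_eq_mul_inv]
      exact (div_le_one hPpos).2 hu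
    · rw [norm_mul, hpw, ← div_eq_mul_inv]
      exact (div_le_one hPpos).2 hv
    · rw [← huv]
      ring
    · have e1 : pw (-(1 / 2)) (p ^ (k + 2)) = pw (-(1 / 2)) p * pw (-(1 / 2)) (p ^ (k + 1)) := by
        rw [← pw_mul]
        congr 1
        ring
      have e2 : pw (-(1 / 2)) (p ^ (k + 1)) = pw (-(1 / 2)) p * pw (-(1 / 2)) (p ^ k) := by
        rw [← pw_mul]
        congr 1
        ring
      show b (p ^ (k + 2)) * pw (-(1 / 2)) (p ^ (k + 2)) = b p * pw (-(1 / 2)) p *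
        (b (p ^ (k + 1)) * pw (-(1 / 2)) (p ^ (k + 1))) -
        u * pw (-(1 / 2)) p * (v * pw (-(1 / 2)) p) * (b (p ^ k) * pw (-(1 / 2)) (p ^ k))
      rw [he k, ← huv2, e1, e2]
      ring

lemma conv_congr {b b' c : ℕ → ℂ} (h : Conv b c) (hb : ∀ n, n ≠ 0 → b n = b' n) : Conv b' c := by
  intro n hn
  rw [← hb n hn, h n hn]
  refine Finset.sum_congr rfl fun d hd => ?_
  have h1 : n / d ≠ 0 := by
    have hdvd := Nat.dvd_of_mem_divisors hd
    have hd0 : 0 < d := Nat.pos_of_mem_divisors hd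
    exact (Nat.div_pos (Nat.le_of_dvd (Nat.pos_of_ne_zero hn) hdvd) hd0).ne'
  rw [hb _ h1]

/-- the traces -/
theorem conv_of_eu2 {b : ℕ → ℂ} {θ : ℝ} (h : Eu2 fun n => b n * pw (-θ) n) :
    ∃ c : ℕ → ℂ, (∀ n : ℕ, ‖c n‖ ≤ 2 * (n : ℝ) ^ θ) ∧ Conv b c := by
  obtain ⟨c, hc, hconv⟩ := h.conv
  refine ⟨fun n => c n * pw θ n, fun n => ?_, ?_⟩
  · rw [norm_mul, pw_norm]
    exact mul_le_mul_of_nonneg_right (hc n) (Real.rpow_nonneg (Nat.cast_nonneg _) _)
  · refine conv_congr (conv_pw hconv θ) fun n hn => ?_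
    have hn0 : (0 : ℝ) < n := by exact_mod_cast Nat.pos_of_ne_zero hn
    have h1 : pw (-θ) n * pw θ n = 1 := by
      unfold pw
      rw [← Complex.ofReal_mul, ← Real.rpow_add hn0, neg_add_cancel, Real.rpow_zero,
        Complex.ofReal_one]
    rw [mul_assoc, h1, mul_one]

theorem rawT_of_isC {θ : ℝ} (hθ0 : 0 ≤ θ) (hθ1 : θ < 1) {l : List ℝ} (hl : l ≠ []) {N : ℝ}
    (hN : 1 ≤ N) (ha : ∀ a ∈ l, -1 / 2 ≤ a)
    {b c : ℕ → ℂ} {w : ℂ} {X : ℂ → ℂ} (h : IsC (l.map Pc.one) (1 / 2 * Real.log N) b w X)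
    (hw : ‖w‖ = 1) (hc : ∀ n : ℕ, ‖c n‖ ≤ l.length * (n : ℝ) ^ θ) (hconv : Conv b c) :
    RawT θ (l.map fun a : ℝ => (a : ℂ)).length 0 N
      (fun j => (l.map fun a : ℝ => (a : ℂ)).get j) b c X := by
  have hN0 : 0 < N := by linarith
  refine ⟨?_, Nat.zero_le _, hN, hθ0, hθ1, fun j => ?_, h.entire, h.order, ⟨w, hw, fun s => ?_⟩,
    h.one, fun n => ?_, hconv, ?_⟩
  · rw [List.length_map]
    exact List.length_pos_iff.2 hl
  · have h1 := List.get_mem (l.map fun a : ℝ => (a : ℂ)) j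
    obtain ⟨a, ha1, ha2⟩ := List.mem_map.1 h1
    rw [← ha2, Complex.ofReal_re]
    exact ha a ha1
  · have := h.fe (1 - s)
    rw [sub_sub_cancel] at this
    rw [this]
    congr 3
    rw [map_sub, map_one]
  · rw [List.length_map]
    exact hc n
  · obtain ⟨σ0, hd⟩ := h.dir
    refine ⟨σ0, fun s hs => ?_⟩
    rw [hd s hs, exp_half_log hN0, prod_get (l.map fun a : ℝ => (a : ℂ)) (fun a : ℂ => Gammaℝ (s + a))]
    have e : GF (l.map Pc.one) s = ((l.map fun a : ℝ => (a : ℂ)).map fun a : ℂ => Gammaℝ (s + a)).prod := by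
      unfold GF
      rw [List.map_map, List.map_map]
      rfl
    rw [e, pow_zero, one_mul]

/-- newforms of weight `k`, with the Hecke relations -/
theorem nf_rawT {N k : ℕ} [NeZero N]
    (f : CuspForm (CongruenceSubgroup.Gamma1 N : Subgroup (GL (Fin 2) ℝ)) (k : ℤ))
    {w : ℂ} (hk : 1 ≤ k) (hf : IsNF N k f w)
    (hmul : ∀ m n : ℕ, Nat.Coprime m n → (UpperHalfPlane.qExpansion 1 f).coeff (m * n) =
      (UpperHalfPlane.qExpansion 1 f).coeff m * (UpperHalfPlane.qExpansion 1 f).coeff n)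
    (hpow : ∀ p : ℕ, p.Prime → ∃ e : ℂ, ∀ j : ℕ,
      (UpperHalfPlane.qExpansion 1 f).coeff (p ^ (j + 2)) =
        (UpperHalfPlane.qExpansion 1 f).coeff p * (UpperHalfPlane.qExpansion 1 f).coeff (p ^ (j + 1)) -
          e * (UpperHalfPlane.qExpansion 1 f).coeff (p ^ j)) :
    ∃ (c : ℕ → ℂ) (X : ℂ → ℂ), RawT (1 / 2)
      ([(((((k : ℝ) - 1) / 2) : ℝ) : ℂ), (((((k : ℝ) + 1) / 2) : ℝ) : ℂ)] : List ℂ).length 0 N
      (fun j => ([(((((k : ℝ) - 1) / 2) : ℝ) : ℂ), (((((k : ℝ) + 1) / 2) : ℝ) : ℂ)] : List ℂ).get j)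
      (fun n => (UpperHalfPlane.qExpansion 1 f).coeff n *
          ((((n : ℝ) ^ (-(((k : ℝ) - 1) / 2)) : ℝ)) : ℂ)) c X := by
  obtain ⟨w', Λ, hw', h⟩ := nf_isC f hk hf
  obtain ⟨A, hA1, hA⟩ := coeff_bound1 f
  set x : ℝ := -(((k : ℝ) - 1) / 2) with hx
  set b : ℕ → ℂ := fun n => (UpperHalfPlane.qExpansion 1 f).coeff n * pw x n with hb
  have hE : Eu2 fun n => b n * pw (-(1 / 2)) n := by
    refine eu2_of_hecke (b := b) (A := A) ?_ (fun m n hmn => ?_) (fun p hp => ?_) (fun n hn => ?_)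
    · simp only [hb]
      rw [hf.one, pw_one, one_mul]
    · simp only [hb]
      rw [hmul m n hmn, pw_mul]
      ring
    · obtain ⟨e, he⟩ := hpow p hp
      refine ⟨e * pw x p ^ 2, fun j => ?_⟩
      have e1 : pw x (p ^ (j + 2)) = pw x p * pw x (p ^ (j + 1)) := by
        rw [← pw_mul]
        congr 1
        ring
      have e2 : pw x (p ^ (j + 1)) = pw x p * pw x (p ^ j) := by
        rw [← pw_mul]
        congr 1
        ring
      simp only [hb]
      rw [he j, e1, e2]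
      ring
    · simp only [hb]
      rw [norm_mul, pw_norm]
      have hn0 : (0 : ℝ) < n := by exact_mod_cast hn
      have h1 := hA n hn
      calc ‖(UpperHalfPlane.qExpansion 1 f).coeff n‖ * (n : ℝ) ^ x
          ≤ (A * (n : ℝ) ^ ((k : ℝ) / 2)) * (n : ℝ) ^ x :=
            mul_le_mul_of_nonneg_right h1 (Real.rpow_nonneg hn0.le _)
        _ = A * (n : ℝ) ^ (1 / 2 : ℝ) := by
            rw [mul_assoc, ← Real.rpow_add hn0]
            congr 2
            rw [hx]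
            ring
  obtain ⟨c, hc, hconv⟩ := conv_of_eu2 hE
  have hN1 : (1 : ℝ) ≤ N := by exact_mod_cast Nat.one_le_iff_ne_zero.2 (NeZero.ne N)
  have hk1 : (1 : ℝ) ≤ k := by exact_mod_cast hk
  have := rawT_of_isC (θ := 1 / 2) (by norm_num) (by norm_num)
    (l := [((k : ℝ) - 1) / 2, ((k : ℝ) + 1) / 2]) (by simp) hN1 (fun a ha => ?_) h
    hw' (c := c) (fun n => by simpa using hc n) hconv
  · exact ⟨c, Λ, this⟩
  · simp only [List.mem_cons, List.not_mem_nil, or_false] at ha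
    rcases ha with rfl | rfl <;> linarith

end Pool.Agent.TH839.NA
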