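import Pool.Agent.W355.UN.Fin

/-!
# L-functions with an Euler product and Satake parameters bounded by `p^θ`
-/

set_option autoImplicit false

open Complex MeasureTheory Filter Topology Set
open scoped ComplexConjugate

namespace Pool.Agent.TH839.NA

open Pool.Agent.W169.HF H353.E Pool.Agent.W355.UN

/-- a completed L-function of degree `m`, with `r` poles at `s = 1`, given by an Euler product: `b` are
the coefficients, `c` the traces of Frobenius, `|c(n)| ≤ m n^θ` -/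
structure RawT (θ : ℝ) (m r : ℕ) (N : ℝ) (a : Fin m → ℂ) (b c : ℕ → ℂ) (X : ℂ → ℂ) : Prop where
  hm : 1 ≤ m
  hr : r ≤ m
  hN : 1 ≤ N
  hθ : 0 ≤ θ
  hθ1 : θ < 1
  re_ge : ∀ j, -1 / 2 ≤ (a j).re
  entire : Differentiable ℂ X
  order : ∃ A ρ : ℝ, ∀ s : ℂ, ‖X s‖ ≤ Real.exp (A * (1 + ‖s‖) ^ ρ)
  fe : ∃ ε : ℂ, ‖ε‖ = 1 ∧ ∀ s : ℂ, X s = ε * conj (X (1 - conj s))
  one : b 1 = 1
  cb : ∀ n : ℕ, ‖c n‖ ≤ m * (n : ℝ) ^ θ
  conv : Conv b c
  eq : ∃ σ : ℝ, ∀ s : ℂ, σ ≤ s.re → X s = (s * (s - 1)) ^ r *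
    ((N : ℂ) ^ (s / 2) * ∏ j, Gammaℝ (s + a j)) * LSeries b s

/-- the power `n^x` as a complex number -/
noncomputable def pw (x : ℝ) (n : ℕ) : ℂ := (((n : ℝ) ^ x : ℝ) : ℂ)

lemma pw_mul (x : ℝ) (m n : ℕ) : pw x (m * n) = pw x m * pw x n := by
  unfold pw
  rw [Nat.cast_mul, Real.mul_rpow (Nat.cast_nonneg _) (Nat.cast_nonneg _), Complex.ofReal_mul]

lemma pw_one (x : ℝ) : pw x 1 = 1 := by
  unfold pw
  rw [Nat.cast_one, Real.one_rpow, Complex.ofReal_one]

lemma pw_norm (x : ℝ) (n : ℕ) : ‖pw x n‖ = (n : ℝ) ^ x := by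
  unfold pw
  rw [Complex.norm_real, Real.norm_of_nonneg (Real.rpow_nonneg (Nat.cast_nonneg _) _)]

lemma pw_cpow (x : ℝ) {n : ℕ} (hn : n ≠ 0) : pw x n = (n : ℂ) ^ (x : ℂ) := by
  unfold pw
  rw [Complex.ofReal_cpow (Nat.cast_nonneg _)]
  simp

/-- twisting by `n^x` -/
lemma conv_pw {b c : ℕ → ℂ} (h : Conv b c) (x : ℝ) :
    Conv (fun n => b n * pw x n) (fun n => c n * pw x n) := by
  intro n hn
  have h1 := h n hn
  have h2 : ∀ d ∈ n.divisors, ((ArithmeticFunction.vonMangoldt d : ℝ) : ℂ) * (c d * pw x d) *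
      (b (n / d) * pw x (n / d)) =
      (((ArithmeticFunction.vonMangoldt d : ℝ) : ℂ) * c d * b (n / d)) * pw x n := by
    intro d hd
    have hdn : d * (n / d) = n := Nat.mul_div_cancel' (Nat.dvd_of_mem_divisors hd)
    have h3 := pw_mul x d (n / d)
    rw [hdn] at h3
    rw [h3]
    ring
  show b n * pw x n * ((Real.log n : ℝ) : ℂ) = _
  rw [Finset.sum_congr rfl h2, ← Finset.sum_mul, ← h1]
  ring

lemma term_shift (b : ℕ → ℂ) (θ : ℝ) (s : ℂ) (n : ℕ) :
    LSeries.term (fun n => b n * pw (-θ) n) (s - θ) n = LSeries.term b s n := by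
  rcases Nat.eq_zero_or_pos n with rfl | hn
  · simp
  · have hn0 : (n : ℂ) ≠ 0 := by exact_mod_cast hn.ne'
    rw [LSeries.term_of_ne_zero hn.ne', LSeries.term_of_ne_zero hn.ne', pw_cpow _ hn.ne',
      Complex.ofReal_neg, Complex.cpow_sub _ _ hn0, Complex.cpow_neg]
    have h1 : (n : ℂ) ^ (θ : ℂ) ≠ 0 := by
      rw [Ne, Complex.cpow_eq_zero_iff]
      exact fun h => hn0 h.1
    have h2 : (n : ℂ) ^ s ≠ 0 := by
      rw [Ne, Complex.cpow_eq_zero_iff]
      exact fun h => hn0 h.1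
    field_simp

lemma lser_shift (b : ℕ → ℂ) (θ : ℝ) :
    LSeries b = fun s => LSeries (fun n => b n * pw (-θ) n) (s - θ) := by
  funext s
  unfold LSeries
  exact tsum_congr fun n => (term_shift b θ s n).symm

lemma summ_shift {b : ℕ → ℂ} {θ : ℝ} {s : ℂ}
    (h : LSeriesSummable (fun n => b n * pw (-θ) n) (s - θ)) : LSeriesSummable b s := by
  unfold LSeriesSummable at h ⊢
  exact h.congr fun n => term_shift b θ s n

lemma cb_tw {m : ℕ} {θ : ℝ} {c : ℕ → ℂ} (h : ∀ n : ℕ, ‖c n‖ ≤ m * (n : ℝ) ^ θ) (n : ℕ) :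
    ‖c n * pw (-θ) n‖ ≤ m := by
  rw [norm_mul, pw_norm]
  have h1 : (n : ℝ) ^ θ * (n : ℝ) ^ (-θ) ≤ 1 := by
    rcases Nat.eq_zero_or_pos n with rfl | hn
    · rcases eq_or_ne θ 0 with rfl | hθ
      · simp
      · rw [Nat.cast_zero, Real.zero_rpow hθ, zero_mul]
        exact zero_le_one
    · have hn0 : (0 : ℝ) < n := by exact_mod_cast hn
      rw [← Real.rpow_add hn0, add_neg_cancel, Real.rpow_zero]
  have h2 : 0 ≤ (n : ℝ) ^ (-θ) := Real.rpow_nonneg (Nat.cast_nonneg _) _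
  calc ‖c n‖ * (n : ℝ) ^ (-θ) ≤ (m * (n : ℝ) ^ θ) * (n : ℝ) ^ (-θ) := by
        gcongr
        exact h n
    _ = m * ((n : ℝ) ^ θ * (n : ℝ) ^ (-θ)) := by ring
    _ ≤ m * 1 := by gcongr
    _ = m := mul_one _

variable {θ : ℝ} {m r : ℕ} {N : ℝ} {a : Fin m → ℂ} {b c : ℕ → ℂ} {X : ℂ → ℂ}

/-- the properties of the Dirichlet series -/
lemma RawT.coef (h : RawT θ m r N a b c X) {s : ℂ} (hs : 1 + θ < s.re) :
    LSeriesSummable b s ∧ LSeries b s ≠ 0 ∧ logDeriv (LSeries b) s =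
      -LSeries (fun n => ((ArithmeticFunction.vonMangoldt n : ℝ) : ℂ) * (c n * pw (-θ) n)) (s - θ) := by
  have hs' : 1 < (s - θ).re := by
    rw [sub_re, ofReal_re]
    linarith
  obtain ⟨h1, h2, h3⟩ := Pool.Agent.W672.UN.coef m (fun n => b n * pw (-θ) n)
    (fun n => c n * pw (-θ) n) (by rw [h.one, pw_one, one_mul]) (cb_tw h.cb) (conv_pw h.conv _)
    (s - θ) hs'
  refine ⟨summ_shift h1, ?_, ?_⟩
  · rw [lser_shift b θ]
    exact h2
  · rw [lser_shift b θ, ← h3, logDeriv_apply, logDeriv_apply, deriv_comp_sub_const]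

lemma RawT.re_le (h : RawT θ m r N a b c X) (j : Fin m) : ((fun j => -a j) j).re ≤ 1 / 2 := by
  have := h.re_ge j
  simp only [neg_re]
  linarith

lemma RawT.absc_le (h : RawT θ m r N a b c X) :
    LSeries.abscissaOfAbsConv b ≤ ((1 + θ : ℝ) : EReal) := by
  refine LSeries.abscissaOfAbsConv_le_of_forall_lt_LSeriesSummable fun y hy => ?_
  refine (h.coef ?_).1
  rw [Complex.ofReal_re]
  exact hy

lemma RawT.lser_an (h : RawT θ m r N a b c X) {s : ℂ} (hs : 1 + θ < s.re) :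
    DifferentiableAt ℂ (LSeries b) s := by
  refine (LSeries_analyticOnNhd b s ?_).differentiableAt
  refine lt_of_le_of_lt h.absc_le ?_
  exact_mod_cast hs

/-- the formula for `X` holds for `Re s > 1 + θ` -/
lemma RawT.eq' (h : RawT θ m r N a b c X) {s : ℂ} (hs : 1 + θ < s.re) :
    X s = gaf N (fun j => -a j) s * ((s * (s - 1)) ^ r * LSeries b s) := by
  have hθ := h.hθ
  have hgp := gaf_GP h.hm h.hN h.re_le
  obtain ⟨σ, hσ⟩ := h.eq
  have h1 : AnalyticOnNhd ℂ X {s : ℂ | 1 + θ < s.re} := fun z _ => h.entire.analyticAt z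
  have hopen : IsOpen {s : ℂ | 1 + θ < s.re} := isOpen_lt continuous_const Complex.continuous_re
  have h2 : AnalyticOnNhd ℂ (fun s => gaf N (fun j => -a j) s * ((s * (s - 1)) ^ r * LSeries b s))
      {s : ℂ | 1 + θ < s.re} := by
    refine DifferentiableOn.analyticOnNhd (fun z hz => ?_) hopen
    have hz' : 1 + θ < z.re := hz
    have e1 := (hgp.der z (by linarith)).differentiableAt
    have e2 := h.lser_an hz'
    exact (e1.mul ((by fun_prop : DifferentiableAt ℂ (fun s : ℂ => (s * (s - 1)) ^ r) z).mul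
      e2)).differentiableWithinAt
  have hz0 : ((max σ (1 + θ) + 1 : ℝ) : ℂ) ∈ {s : ℂ | 1 + θ < s.re} := by
    have := le_max_right σ (1 + θ)
    show 1 + θ < (((max σ (1 + θ) + 1 : ℝ) : ℂ)).re
    rw [Complex.ofReal_re]
    linarith
  refine h1.eqOn_of_preconnected_of_eventuallyEq h2 (convex_halfSpace_re_gt (1 + θ)).isPreconnected
    hz0 ?_ hs
  have h3 : ∀ᶠ z : ℂ in 𝓝 ((max σ (1 + θ) + 1 : ℝ) : ℂ), σ < z.re := by
    have := le_max_left σ (1 + θ)
    exact (Complex.continuous_re.tendsto _).eventually (lt_mem_nhds (by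
      rw [Complex.ofReal_re]
      linarith))
  filter_upwards [h3] with z hz
  rw [hσ z hz.le, gaf_eq]
  ring

theorem RawT.slow (h : RawT θ m r N a b c X) : Slow X := by
  refine ⟨h.entire, Pool.Agent.W12.UN.slow X h.entire h.order h.fe ?_⟩
  have hθ1 := h.hθ1
  have hlin : SlowR fun s : ℂ => s := by
    refine SlowR.of_exp (A := 0) (k := 1) fun s _ => ?_
    have := Real.add_one_le_exp ‖s‖
    rw [zero_add, one_mul]
    linarith
  have hlin1 : SlowR fun s : ℂ => s - 1 := by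
    refine SlowR.of_exp (A := 0) (k := 1) fun s _ => ?_
    have := Real.add_one_le_exp ‖s‖
    have h2 := norm_sub_le s 1
    rw [norm_one] at h2
    rw [zero_add, one_mul]
    linarith
  have hN0 : 0 < N := by linarith [h.hN]
  have hcp : SlowR fun s : ℂ => (N : ℂ) ^ (s / 2) := by
    refine SlowR.of_exp (A := 0) (k := Real.log N) fun s hs => ?_
    rw [Complex.norm_cpow_eq_rpow_re_of_pos hN0, Real.rpow_def_of_pos hN0, zero_add]
    apply Real.exp_le_exp.2
    have h1 : (s / 2).re ≤ ‖s‖ := by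
      have e : (s / 2).re = s.re / 2 := by
        rw [show (2 : ℂ) = ((2 : ℝ) : ℂ) by norm_num, Complex.div_ofReal_re]
      rw [e]
      have := Complex.re_le_norm s
      linarith
    exact mul_le_mul_of_nonneg_left h1 (Real.log_nonneg h.hN)
  have hga : SlowR fun s : ℂ => ∏ j, Gammaℝ (s + a j) :=
    SlowR.prod Finset.univ fun j => Pool.Agent.W215.UN.gam (a j) (h.re_ge j)
  have hL : SlowR fun s : ℂ => LSeries b s := by
    have h2 : LSeriesSummable b 2 := (h.coef (by rw [re_ofNat]; linarith)).1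
    refine SlowR.of_exp (A := ∑' n, ‖LSeries.term b 2 n‖) (k := 0) fun s hs => ?_
    have h3 : ∀ n, ‖LSeries.term b s n‖ ≤ ‖LSeries.term b 2 n‖ := fun n =>
      LSeries.norm_term_le_of_re_le_re b (by simpa using hs) n
    have h4 : Summable fun n => ‖LSeries.term b 2 n‖ := h2.norm
    have h5 : Summable fun n => ‖LSeries.term b s n‖ :=
      Summable.of_nonneg_of_le (fun _ => norm_nonneg _) h3 h4
    have h6 : ‖LSeries b s‖ ≤ ∑' n, ‖LSeries.term b 2 n‖ := by
      unfold LSeries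
      exact (norm_tsum_le_tsum_norm h5).trans (h5.tsum_le_tsum h3 h4)
    have := Real.add_one_le_exp (∑' n, ‖LSeries.term b 2 n‖)
    rw [zero_mul, add_zero]
    linarith
  have key := ((hcp.mul hga).mul (((hlin.mul hlin1).pow r).mul hL))
  intro δ hδ
  obtain ⟨K, hK, H⟩ := key δ hδ
  refine ⟨K, hK, fun s hs => ?_⟩
  rw [h.eq' (by linarith), gaf_eq]
  exact H s hs

/-- L-functions with an Euler product belong to the class `UL` -/
theorem RawT.ul (h : RawT θ m r N a b c X) :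
    UL m Bst N θ (fun j => -a j) X (fun s => (s * (s - 1)) ^ r * LSeries b s) := by
  have hθ := h.hθ
  have hs0 : ∀ s : ℂ, 1 < s.re → s ≠ 0 := fun s hs h0 => by
    rw [h0] at hs; norm_num at hs
  have hs1 : ∀ s : ℂ, 1 < s.re → s - 1 ≠ 0 := fun s hs h0 => by
    rw [sub_eq_zero] at h0
    rw [h0] at hs; norm_num at hs
  refine ⟨h.hm, h.hN, Bst_nonneg, h.hθ, h.re_le, h.slow, h.fe, fun s hs => h.eq' hs,
    fun s hs => ?_, fun ρ hρ _ s hs => ?_⟩
  · have hs' : 1 < s.re := by linarith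
    exact mul_ne_zero (pow_ne_zero _ (mul_ne_zero (hs0 s hs') (hs1 s hs'))) (h.coef hs).2.1
  · have hs' : 1 < s.re := by linarith
    have hs2 : 1 + θ < s.re := by linarith
    have hne := (h.coef hs2).2.1
    have hld := (h.coef hs2).2.2
    have e1 : logDeriv (fun s : ℂ => (s * (s - 1)) ^ r * LSeries b s) s =
        r * (1 / s + 1 / (s - 1)) + logDeriv (LSeries b) s := by
      rw [logDeriv_mul (f := fun s : ℂ => (s * (s - 1)) ^ r) (g := LSeries b) s
        (pow_ne_zero _ (mul_ne_zero (hs0 s hs') (hs1 s hs'))) hne (by fun_prop) (h.lser_an hs2)]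
      congr 1
      have e2 : logDeriv (fun s : ℂ => (s * (s - 1)) ^ r) s =
          r * logDeriv (fun s : ℂ => s * (s - 1)) s :=
        logDeriv_fun_pow (f := fun s : ℂ => s * (s - 1)) (by fun_prop) r
      rw [e2, logDeriv_mul (f := fun s : ℂ => s) (g := fun s : ℂ => s - 1) s (hs0 s hs') (hs1 s hs')
        (by fun_prop) (by fun_prop)]
      congr 1
      rw [logDeriv_apply, logDeriv_apply]
      simp
    rw [e1, hld]
    have hm0 : (0 : ℝ) ≤ m := Nat.cast_nonneg m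
    have hr0 : (r : ℝ) ≤ m := by exact_mod_cast h.hr
    have hρs : ρ ≤ ‖s - 1‖ := by
      have := Complex.re_le_norm (s - 1)
      rw [sub_re, one_re] at this
      linarith
    have hρ0 : ρ ≤ ‖s‖ := by
      have := Complex.re_le_norm s
      linarith
    have h1 : ‖(r : ℂ) * (1 / s + 1 / (s - 1))‖ ≤ m * |2 / ρ| := by
      rw [norm_mul, Complex.norm_natCast, abs_of_pos (by positivity)]
      have h2 : ‖1 / s + 1 / (s - 1)‖ ≤ 2 / ρ := by
        refine (norm_add_le _ _).trans ?_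
        rw [norm_div, norm_div, norm_one]
        have h3 : 1 / ‖s‖ ≤ 1 / ρ := one_div_le_one_div_of_le hρ hρ0
        have h4 : 1 / ‖s - 1‖ ≤ 1 / ρ := one_div_le_one_div_of_le hρ hρs
        have h5 : 2 / ρ = 1 / ρ + 1 / ρ := by ring
        linarith
      exact mul_le_mul hr0 h2 (norm_nonneg _) hm0
    have h2 := lc_bound (cb_tw h.cb) hρ (s := s - θ) (by rw [sub_re, ofReal_re]; linarith)
    unfold Bst
    refine (norm_add_le _ _).trans ?_
    rw [norm_neg]
    linarith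

end Pool.Agent.TH839.NA
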