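import Pool.Agent.TH839.NA.Raw

/-!
# Products; the theorems with one constant
-/

set_option autoImplicit false

open Complex MeasureTheory Filter Topology Set
open scoped ComplexConjugate

namespace Pool.Agent.TH839.NA

open Pool.Agent.W169.HF H353.E Pool.Agent.W355.UN

/-- an L-function of degree `d`, conductor `N`, analytic conductor `cn y` at height `y`, with
completed function `X`, equal to `G` for large real part, and Satake parameters at most `p^θ` -/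
def PkT (θ : ℝ) (d : ℕ) (N : ℝ) (cn : ℝ → ℝ) (G X : ℂ → ℂ) : Prop :=
  ∃ (μ : Fin d → ℂ) (L : ℂ → ℂ), UL d Bst N θ μ X L ∧ (∀ y, cond N μ y = cn y) ∧
    ∃ σ : ℝ, ∀ s : ℂ, σ ≤ s.re → X s = G s

theorem UL.mono {m : ℕ} {B : ℝ → ℝ} {N θ θ' : ℝ} {μ : Fin m → ℂ} {X L : ℂ → ℂ}
    (h : UL m B N θ μ X L) (hθ : θ ≤ θ') : UL m B N θ' μ X L :=
  ⟨h.hm, h.hN, h.hB, h.hθ.trans hθ, h.re_le, h.slow, h.fe, fun s hs => h.eq s (by linarith),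
    fun s hs => h.ne s (by linarith), fun ρ h0 h1 s hs => h.bd ρ h0 h1 s (by linarith)⟩

theorem PkT.mono {θ θ' : ℝ} {d : ℕ} {N : ℝ} {cn : ℝ → ℝ} {G X : ℂ → ℂ} (h : PkT θ d N cn G X)
    (hθ : θ ≤ θ') : PkT θ' d N cn G X := by
  obtain ⟨μ, L, u, e, σ, g⟩ := h
  exact ⟨μ, L, UL.mono u hθ, e, σ, g⟩

theorem PkT.of_pk {d : ℕ} {N : ℝ} {cn : ℝ → ℝ} {G X : ℂ → ℂ} (h : Pk d N cn G X) :
    PkT 0 d N cn G X := h

theorem PkT.mul {θ : ℝ} {d1 d2 : ℕ} {N1 N2 : ℝ} {c1 c2 : ℝ → ℝ} {G1 G2 X1 X2 : ℂ → ℂ}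
    (h1 : PkT θ d1 N1 c1 G1 X1) (h2 : PkT θ d2 N2 c2 G2 X2) :
    PkT θ (d1 + d2) (N1 * N2) (fun y => c1 y * c2 y) (fun s => G1 s * G2 s)
      (fun s => X1 s * X2 s) := by
  obtain ⟨μ1, L1, u1, e1, σ1, g1⟩ := h1
  obtain ⟨μ2, L2, u2, e2, σ2, g2⟩ := h2
  refine ⟨_, _, u1.mul u2, fun y => ?_, max σ1 σ2, fun s hs => ?_⟩
  · rw [cond_append, e1, e2]
  · show X1 s * X2 s = G1 s * G2 s
    rw [g1 s ((le_max_left _ _).trans hs), g2 s ((le_max_right _ _).trans hs)]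

theorem pkT_list {ι : Type} (ϑ : ι → ℝ) (d : ι → ℕ) (N : ι → ℝ) (cn : ι → ℝ → ℝ) (G : ι → ℂ → ℂ)
    (h : ∀ i, ∃ X : ℂ → ℂ, PkT (ϑ i) (d i) (N i) (cn i) (G i) X) (l : List ι) (hl : l ≠ []) :
    ∃ X : ℂ → ℂ, ∀ θ : ℝ, (∀ i ∈ l, ϑ i ≤ θ) →
      PkT θ (l.map d).sum (l.map N).prod (fun y => (l.map fun i => cn i y).prod)
      (fun s => (l.map fun i => G i s).prod) X := by
  induction l with
  | nil => exact absurd rfl hl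
  | cons a l ih =>
    obtain ⟨X1, h1⟩ := h a
    rcases eq_or_ne l [] with rfl | hne
    · refine ⟨X1, fun θ hθ => ?_⟩
      simpa using h1.mono (hθ a (by simp))
    · obtain ⟨X2, h2⟩ := ih hne
      refine ⟨fun s => X1 s * X2 s, fun θ hθ => ?_⟩
      simp only [List.map_cons, List.sum_cons, List.prod_cons]
      exact (h1.mono (hθ a (by simp))).mul (h2 θ fun i hi => hθ i (by simp [hi]))

theorem PkT.of_raw {θ : ℝ} {m r : ℕ} {N : ℝ} {a : Fin m → ℂ} {b c : ℕ → ℂ} {X : ℂ → ℂ}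
    (h : RawT θ m r N a b c X) :
    PkT θ m N (fun y => N * ∏ j, (1 + ‖(y : ℂ) * I + a j‖))
      (fun s => (s * (s - 1)) ^ r * ((N : ℂ) ^ (s / 2) * ∏ j, Gammaℝ (s + a j)) * LSeries b s) X := by
  refine ⟨_, _, h.ul, fun y => ?_, h.eq⟩
  unfold Pool.Agent.W355.UN.cond
  simp only [sub_neg_eq_add]

theorem PkT.congr {θ : ℝ} {d : ℕ} {N : ℝ} {cn cn' : ℝ → ℝ} {G G' X : ℂ → ℂ}
    (h : PkT θ d N cn G X) (h1 : ∀ y, cn y = cn' y)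
    (h2 : ∃ σ : ℝ, ∀ s : ℂ, σ ≤ s.re → G s = G' s) : PkT θ d N cn' G' X := by
  obtain ⟨μ, L, u, e, σ, g⟩ := h
  obtain ⟨σ', h2⟩ := h2
  exact ⟨μ, L, u, fun y => (e y).trans (h1 y), max σ σ', fun s hs =>
    (g s ((le_max_left _ _).trans hs)).trans (h2 s ((le_max_right _ _).trans hs))⟩

/-- list version -/
theorem pkT_of_rawL {θ : ℝ} {l : List ℂ} {r : ℕ} {N : ℝ} {b c : ℕ → ℂ} {X : ℂ → ℂ}
    (h : RawT θ l.length r N (fun j => l.get j) b c X) :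
    PkT θ l.length N (acond N l) (cser r N l b) X := by
  refine (PkT.of_raw h).congr (fun y => ?_) ⟨0, fun s _ => ?_⟩
  · unfold acond
    rw [← prod_get l (fun a : ℂ => 1 + ‖(y : ℂ) * I + a‖)]
  · unfold cser
    rw [← prod_get l (fun a : ℂ => Gammaℝ (s + a))]

section
variable {θ : ℝ} {d : ℕ} {N : ℝ} {cn : ℝ → ℝ} {G X : ℂ → ℂ}

theorem PkT.one_le_d (h : PkT θ d N cn G X) : 1 ≤ d := by
  obtain ⟨μ, L, u, -⟩ := h
  exact u.hm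

theorem PkT.one_le_N (h : PkT θ d N cn G X) : 1 ≤ N := by
  obtain ⟨μ, L, u, -⟩ := h
  exact u.hN

theorem PkT.zero_le (h : PkT θ d N cn G X) : 0 ≤ θ := by
  obtain ⟨μ, L, u, -⟩ := h
  exact u.hθ

theorem PkT.le_cn (h : PkT θ d N cn G X) (y : ℝ) : N ≤ cn y := by
  obtain ⟨μ, L, u, e, -⟩ := h
  rw [← e y]
  unfold Pool.Agent.W355.UN.cond
  have h1 : 1 ≤ ∏ j, (1 + ‖(y : ℂ) * I - μ j‖) := by
    refine Finset.prod_induction _ (fun x => (1 : ℝ) ≤ x) (fun a b ha hb => ?_) le_rfl fun j _ => ?_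
    · nlinarith
    · linarith [norm_nonneg ((y : ℂ) * I - μ j)]
  have := u.hN
  nlinarith

theorem PkT.diff (h : PkT θ d N cn G X) : Differentiable ℂ X := by
  obtain ⟨μ, L, u, -⟩ := h
  exact u.slow.1

theorem PkT.fe (h : PkT θ d N cn G X) :
    ∃ w : ℂ, ‖w‖ = 1 ∧ ∀ s : ℂ, X (1 - s) = w * conj (X (conj s)) := by
  obtain ⟨μ, L, u, -⟩ := h
  obtain ⟨ε, e, f⟩ := u.fe
  refine ⟨ε, e, fun s => ?_⟩
  rw [f (1 - s)]
  congr 3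
  rw [map_sub, map_one]
  ring

end

/-- the absolute theorem -/
theorem finT_abs : ∃ C : ℝ, 0 < C ∧ ∀ (θ : ℝ) (d : ℕ) (N : ℝ) (cn : ℝ → ℝ) (G X : ℂ → ℂ),
    PkT θ d N cn G X → θ ≤ 1 →
    (∀ (t : ℝ) (s : ℂ), 0 < t → C ≤ t * (d + Real.log (cn s.im)) → heat t X s = 0 → s.re = 1 / 2) ∧
    (∀ (t : ℝ), 0 < t → C ≤ t * (d + Real.log N) → ∀ s : ℂ, heat t X s = 0 → s.re = 1 / 2) ∧
    ((∀ s : ℂ, X s = 0 → s.re = 1 / 2) ↔
      ∀ t : ℝ, 0 < t → t * (d + Real.log N) < C → ∀ s : ℂ, heat t X s = 0 → s.re = 1 / 2) := by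
  obtain ⟨C, hC, H⟩ := absolute (Bst_nonneg 1)
  refine ⟨C, hC, fun θ d N cn G X h hθ => ?_⟩
  have hd : (1 : ℝ) ≤ d := by exact_mod_cast h.one_le_d
  have hN := h.one_le_N
  have hlog := Real.log_nonneg hN
  have hle := h.le_cn
  obtain ⟨μ, L, u, e, -⟩ := h
  have h1 : ∀ (t : ℝ) (s : ℂ), 0 < t → C ≤ t * (d + Real.log (cn s.im)) → heat t X s = 0 →
      s.re = 1 / 2 := fun t s ht hc hs => H d N θ μ X L u hθ t s ht (by rw [e]; exact hc) hs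
  have h2 : ∀ (t : ℝ), 0 < t → C ≤ t * (d + Real.log N) → ∀ s : ℂ, heat t X s = 0 → s.re = 1 / 2 :=
    fun t ht hc s hs => h1 t s ht (hc.trans (mul_le_mul_of_nonneg_left
      (by linarith [Real.log_le_log (by linarith) (hle s.im)]) ht.le)) hs
  refine ⟨h1, h2, ?_⟩
  have hpos : 0 < (d : ℝ) + Real.log N := by linarith
  rw [rh_iff u (T := C / (d + Real.log N)) (by positivity)]
  constructor
  · intro hr t ht htC
    exact hr t ht ((lt_div_iff₀ hpos).2 htC)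
  · intro hr t ht htC
    exact hr t ht ((lt_div_iff₀ hpos).1 htC)

/-- the sharp theorem -/
theorem finT_sharp {θ η : ℝ} (hθ0 : 0 ≤ θ) (hθ1 : θ ≤ 1 / 2) (hη : 0 < η) : ∃ C : ℝ, 0 < C ∧
    ∀ (d : ℕ) (N : ℝ) (cn : ℝ → ℝ) (G X : ℂ → ℂ), PkT θ d N cn G X →
    (∀ (t : ℝ) (s : ℂ), 0 < t → C * d ≤ Real.log (cn s.im) →
      1 + 2 * θ + η ≤ t * Real.log (cn s.im) → heat t X s = 0 → s.re = 1 / 2) ∧
    (C * d ≤ Real.log N →
      (∀ t : ℝ, (1 + 2 * θ + η) / Real.log N ≤ t → ∀ s : ℂ, heat t X s = 0 → s.re = 1 / 2) ∧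
      ((∀ s : ℂ, X s = 0 → s.re = 1 / 2) ↔
        ∀ t : ℝ, 0 < t → t < (1 + 2 * θ + η) / Real.log N → ∀ s : ℂ, heat t X s = 0 →
          s.re = 1 / 2)) := by
  obtain ⟨C, hC, H⟩ := sharp (B := Bst) (θ := θ) (η := min η 1) Bst_nonneg hθ0 hθ1
    (by positivity) (min_le_right _ _)
  refine ⟨C, hC, fun d N cn G X h => ?_⟩
  have hd : (1 : ℝ) ≤ d := by exact_mod_cast h.one_le_d
  have hN := h.one_le_N
  have hle := h.le_cn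
  obtain ⟨μ, L, u, e, -⟩ := h
  have h1 : ∀ (t : ℝ) (s : ℂ), 0 < t → C * d ≤ Real.log (cn s.im) →
      1 + 2 * θ + η ≤ t * Real.log (cn s.im) → heat t X s = 0 → s.re = 1 / 2 :=
    fun t s ht hc hc2 hs =>
      H d N μ X L u t s ht (by rw [e]; exact hc) (by rw [e]; linarith [min_le_left η 1]) hs
  refine ⟨h1, fun hCN => ?_⟩
  have hlog : 0 < Real.log N := by
    have : 0 < C * d := by positivity
    linarith
  have h2 : ∀ t : ℝ, (1 + 2 * θ + η) / Real.log N ≤ t → ∀ s : ℂ, heat t X s = 0 →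
      s.re = 1 / 2 := by
    intro t ht s hs
    have ht0 : 0 < t := lt_of_lt_of_le (by positivity) ht
    have hl := Real.log_le_log (by linarith) (hle s.im)
    rw [div_le_iff₀ hlog] at ht
    exact h1 t s ht0 (hCN.trans hl) (ht.trans (mul_le_mul_of_nonneg_left hl ht0.le)) hs
  exact ⟨h2, rh_iff u (by positivity)⟩

/-- all results -/
structure ResT (C : ℝ) (K : ℝ → ℝ → ℝ) (d : ℕ) (N : ℝ) (cn : ℝ → ℝ) (X : ℂ → ℂ) : Prop where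
  loc : ∀ (t : ℝ) (s : ℂ), 0 < t → C ≤ t * (d + Real.log (cn s.im)) → heat t X s = 0 → s.re = 1 / 2
  glob : ∀ (t : ℝ), 0 < t → C ≤ t * (d + Real.log N) → ∀ s : ℂ, heat t X s = 0 → s.re = 1 / 2
  iff : (∀ s : ℂ, X s = 0 → s.re = 1 / 2) ↔
      ∀ t : ℝ, 0 < t → t * (d + Real.log N) < C → ∀ s : ℂ, heat t X s = 0 → s.re = 1 / 2

theorem finT_all : ∃ (C : ℝ) (K : ℝ → ℝ → ℝ), 0 < C ∧ (∀ θ η, 0 < K θ η) ∧
    (∀ (θ : ℝ) (d : ℕ) (N : ℝ) (cn : ℝ → ℝ) (G X : ℂ → ℂ), PkT θ d N cn G X → θ ≤ 1 →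
      ResT C K d N cn X) ∧
    ∀ θ η : ℝ, θ ≤ 1 / 2 → 0 < η →
      ∀ (d : ℕ) (N : ℝ) (cn : ℝ → ℝ) (G X : ℂ → ℂ), PkT θ d N cn G X →
      (K θ η * d ≤ Real.log N →
        (∀ t : ℝ, (1 + 2 * θ + η) / Real.log N ≤ t → ∀ s : ℂ, heat t X s = 0 → s.re = 1 / 2) ∧
        ((∀ s : ℂ, X s = 0 → s.re = 1 / 2) ↔
          ∀ t : ℝ, 0 < t → t < (1 + 2 * θ + η) / Real.log N → ∀ s : ℂ, heat t X s = 0 →
            s.re = 1 / 2)) ∧
      (∀ (t : ℝ) (s : ℂ), 0 < t → K θ η * d ≤ Real.log (cn s.im) →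
        1 + 2 * θ + η ≤ t * Real.log (cn s.im) → heat t X s = 0 → s.re = 1 / 2) := by
  obtain ⟨C, hC, H1⟩ := finT_abs
  have h2 : ∀ θ η : ℝ, ∃ K : ℝ, 0 < K ∧ (θ ≤ 1 / 2 → 0 < η → ∀ (d : ℕ) (N : ℝ) (cn : ℝ → ℝ)
    (G X : ℂ → ℂ), PkT θ d N cn G X →
    (∀ (t : ℝ) (s : ℂ), 0 < t → K * d ≤ Real.log (cn s.im) →
      1 + 2 * θ + η ≤ t * Real.log (cn s.im) → heat t X s = 0 → s.re = 1 / 2) ∧
    (K * d ≤ Real.log N →
      (∀ t : ℝ, (1 + 2 * θ + η) / Real.log N ≤ t → ∀ s : ℂ, heat t X s = 0 → s.re = 1 / 2) ∧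
      ((∀ s : ℂ, X s = 0 → s.re = 1 / 2) ↔
        ∀ t : ℝ, 0 < t → t < (1 + 2 * θ + η) / Real.log N → ∀ s : ℂ, heat t X s = 0 →
          s.re = 1 / 2))) := by
    intro θ η
    by_cases hη : 0 ≤ θ ∧ θ ≤ 1 / 2 ∧ 0 < η
    · obtain ⟨K, hK, H⟩ := finT_sharp hη.1 hη.2.1 hη.2.2
      exact ⟨K, hK, fun _ _ => H⟩
    · exact ⟨1, one_pos, fun h1 h2 d N cn G X h => absurd ⟨h.zero_le, h1, h2⟩ hη⟩
  choose K hK H2 using h2
  refine ⟨C, K, hC, hK, fun θ d N cn G X h hθ => ?_, fun θ η h1 h2 d N cn G X h => ?_⟩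
  · obtain ⟨a1, a2, a3⟩ := H1 θ d N cn G X h hθ
    exact ⟨a1, a2, a3⟩
  · exact ⟨(H2 θ η h1 h2 d N cn G X h).2, (H2 θ η h1 h2 d N cn G X h).1⟩

end Pool.Agent.TH839.NA
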