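import Pool.Agent.TH839.NA.Form
import Pool.Agent.TH839.NA.Pack
import Pool.Agent.W355.LC.Lst

/-!
# The known families with Satake parameters bounded by `p^θ`
-/

set_option autoImplicit false

open Complex MeasureTheory Filter Topology Set CongruenceSubgroup MatrixGroups
open scoped ComplexConjugate

namespace Pool.Agent.TH839.NA

open Pool.Agent.W169.HF H353.E Pool.Agent.W355.UN Pool.Agent.W355.LJ
open Pool.Agent.W355.LC (cPsi cPsi_eq hck_of_primQ)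
open Pool.Agent.W354.PK (bK)

/-- list version -/
def RawTL (θ : ℝ) (l : List ℂ) (r : ℕ) (N : ℝ) (b c : ℕ → ℂ) (X : ℂ → ℂ) : Prop :=
  RawT θ l.length r N (fun j => l.get j) b c X

theorem rawT_of_raw {m r : ℕ} {N : ℝ} {a : Fin m → ℂ} {b c : ℕ → ℂ} {X : ℂ → ℂ}
    (h : Raw m r N a b c X) : RawT 0 m r N a b c X :=
  ⟨h.hm, h.hr, h.hN, le_rfl, one_pos, h.re_ge, h.entire, h.order, h.fe, h.one,
    fun n => by rw [Real.rpow_zero, mul_one]; exact h.cb n, h.conv, h.eq⟩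

theorem rawTL_of_rawL {l : List ℂ} {r : ℕ} {N : ℝ} {b c : ℕ → ℂ} {X : ℂ → ℂ}
    (h : RawL l r N b c X) : RawTL 0 l r N b c X := rawT_of_raw h

/-- the completed function and the summability, from raw data with the same coefficients -/
theorem RawTL.out {θ : ℝ} {l : List ℂ} {r : ℕ} {N : ℝ} {b b' c : ℕ → ℂ} {X : ℂ → ℂ}
    (h : RawTL θ l r N b' c X) (hb : ∀ n, n ≠ 0 → b n = b' n) :
    PkT θ l.length N (acond N l) (cser r N l b) X ∧
      ∃ σ : ℝ, ∀ s : ℂ, σ ≤ s.re → LSeriesSummable b s := by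
  refine ⟨(pkT_of_rawL h).congr (fun _ => rfl) ⟨0, fun s _ => ?_⟩, 2 + θ, fun s hs => ?_⟩
  · unfold cser
    rw [LSeries_congr (fun {n} hn => hb n hn) s]
  · exact (LSeriesSummable_congr s (fun {n} hn => hb n hn)).2 (RawT.coef h (by linarith)).1

theorem psi_rawT (k : ℕ) (q : GaussianInt) (hq : q ≠ 0) (χ : MulChar (ZQ q) ℂ)
    (h : PrimQ q χ) (hχ : chQ q χ ⟨0, 1⟩ = (-I) ^ k) (hk : k = 0 → 1 < Zsqrtd.norm q) :
    ∃ (b c : ℕ → ℂ) (X : ℂ → ℂ), RawTL 0 [(k : ℂ) / 2, (k : ℂ) / 2 + 1] 0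
      ((4 * Zsqrtd.norm q : ℤ) : ℝ) b c X ∧ ∀ n, n ≠ 0 → cPsi k q χ n = b n := by
  rcases Nat.eq_zero_or_pos k with rfl | hk0
  · have h1 : chQ q χ ⟨0, 1⟩ = 1 := by rw [hχ, pow_zero]
    obtain ⟨c, X, hg⟩ := ray_raw q (hk rfl) χ h h1
    refine ⟨Pool.Agent.H82R3.AR.bH (chQ q χ), c, X, ?_, fun n hn => ?_⟩
    · have e : ([((0 : ℕ) : ℂ) / 2, ((0 : ℕ) : ℂ) / 2 + 1] : List ℂ) = [0, 1] := by simp
      rw [e]
      exact rawTL_of_rawL hg
    · rw [cPsi_eq _ _ _ _ hn]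
      unfold bK Pool.Agent.H82R3.AR.bH Pool.Agent.H304R3.HK.bb
      congr 1
      refine Finset.sum_congr rfl fun p hp => ?_
      have hp2 : p.1 ^ 2 + p.2 ^ 2 = (n : ℤ) := (Finset.mem_filter.1 hp).2
      have hne : (⟨p.1, p.2⟩ : GaussianInt) ≠ 0 := by
        intro h0
        have h1 : p.1 = 0 := congrArg Zsqrtd.re h0
        have h2 : p.2 = 0 := congrArg Zsqrtd.im h0
        rw [h1, h2] at hp2
        apply hn
        have : (n : ℤ) = 0 := by rw [← hp2]; ring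
        exact_mod_cast this
      show (if (⟨p.1, p.2⟩ : GaussianInt) = 0 then 0 else _) = _
      rw [if_neg hne, pow_zero, mul_one]
  · obtain ⟨c, X, hg⟩ := hecke_raw hk0 q (chQ q χ) (hck_of_primQ q hq χ h hχ)
    exact ⟨_, c, X, rawTL_of_rawL hg, fun n hn => cPsi_eq _ _ _ _ hn⟩

end Pool.Agent.TH839.NA
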